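import Pool.Agent.H7.TRI.Stmts

/-! Board tri, row OUT: degrees and defects of a member of `XX`. -/

set_option linter.unusedVariables false

open Finset

namespace Pool.TRI

theorem OUT_thm (h : RCHStmt) : OUTStmt := by
  intro V _ _ G d m hyp C hC w hw
  classical
  obtain ⟨hcard, -, -, -, -, -, -, -⟩ := h V G d m hyp C hC
  obtain ⟨hwC, hwne⟩ := mem_XX.1 hw
  -- the part of `nb w` in `C`
  have e1 : nb G w ∩ C = (C ∩ cn G w).erase w := by
    ext x
    rw [mem_inter, mem_erase, mem_inter, mem_cn]
    constructor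
    · rintro ⟨hx, hxC⟩
      have hadj := mem_nb.1 hx
      exact ⟨hadj.ne', hxC, Or.inr hadj⟩
    · rintro ⟨hne, hxC, hx⟩
      rcases hx with hx | hx
      · exact absurd hx hne
      · exact ⟨mem_nb.2 hx, hxC⟩
  have hwmem : w ∈ C ∩ cn G w := mem_inter.2 ⟨hwC, self_mem_cn w⟩
  have c1 : (nb G w ∩ C).card + 1 = (C ∩ cn G w).card := by
    rw [e1, card_erase_of_mem hwmem]
    have := card_pos.2 ⟨w, hwmem⟩
    omega
  have c2 : (C \ cn G w).card + (C ∩ cn G w).card = C.card := card_sdiff_add_card_inter C (cn G w)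
  have c3 : (nb G w \ C).card + (nb G w ∩ C).card = (nb G w).card :=
    card_sdiff_add_card_inter (nb G w) C
  have c4 : (nb G w ∩ C).card + df G C w = d := by
    unfold df
    omega
  have hdeg := hyp.deg w
  have hSSnb : ∀ z ∈ SS G C, z ∈ nb G w := by
    intro z hz
    obtain ⟨hzC, hzcn⟩ := mem_SS.1 hz
    have h1 : w ∈ cn G z := by rw [hzcn]; exact hwC
    rcases mem_cn.1 h1 with h2 | h2
    · exact absurd (by rw [h2]; exact hzcn) hwne
    · exact mem_nb.2 h2.symm
  refine ⟨by omega, by omega, ?_, ?_⟩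
  · intro u hu huC
    have hd1 : Disjoint (nb G w ∩ nb G u) (SS G C) := by
      rw [Finset.disjoint_left]
      intro z hz hzS
      obtain ⟨hzC, hzcn⟩ := mem_SS.1 hzS
      have h1 : G.Adj u z := mem_nb.1 (mem_inter.1 hz).2
      apply huC
      rw [← hzcn]
      exact mem_cn.2 (Or.inr h1.symm)
    have hsub : insert u ((nb G w ∩ nb G u) ∪ SS G C) ⊆ nb G w := by
      intro x hx
      rcases mem_insert.1 hx with hx | hx
      · rw [hx]; exact hu
      · rcases mem_union.1 hx with hx | hx
        · exact (mem_inter.1 hx).1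
        · exact hSSnb x hx
    have hnot : u ∉ (nb G w ∩ nb G u) ∪ SS G C := by
      intro hx
      rcases mem_union.1 hx with hx | hx
      · exact self_notMem_nb u (mem_inter.1 hx).2
      · exact huC (mem_SS.1 hx).1
    have hc := card_le_card hsub
    rw [card_insert_of_notMem hnot, card_union_of_disjoint hd1] at hc
    have hle : cd G w u + (SS G C).card + 1 ≤ d := by
      unfold cd
      omega
    unfold et
    omega
  · intro u hu
    have hunb := hSSnb u hu
    refine ⟨hunb, ?_⟩
    obtain ⟨huC, hucn⟩ := mem_SS.1 hu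
    have e2 : nb G w ∩ nb G u = (nb G w ∩ C).erase u := by
      ext x
      rw [mem_inter, mem_erase, mem_inter, ← hucn, mem_cn]
      constructor
      · rintro ⟨h1, h2⟩
        have hadj := mem_nb.1 h2
        exact ⟨hadj.ne', h1, Or.inr hadj⟩
      · rintro ⟨h1, h2, h3⟩
        rcases h3 with h3 | h3
        · exact absurd h3 h1
        · exact ⟨h2, mem_nb.2 h3⟩
    have humem : u ∈ nb G w ∩ C := mem_inter.2 ⟨hunb, huC⟩
    have hc : cd G w u + 1 = (nb G w ∩ C).card := by
      unfold cd
      rw [e2, card_erase_of_mem humem]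
      have := card_pos.2 ⟨u, humem⟩
      omega
    unfold et
    omega

end Pool.TRI
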